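import Pool.Agent.Helper15.BR.Defs
import Pool.Agent.Helper28.BR.Defs

/-!
# BR, front end, piece W4: good reduction gives integral data
-/

set_option autoImplicit false

namespace Pool.Agent.Helper92.BR

open TensorProduct NumberField Pool.Agent.Helper4.CB
open Pool.Agent.Helper15.BR (SC LR Good)
open Pool.Agent.Helper28.BR (AzInt)
open Pool.Agent.Helper69.CB (vl)

section Core

variable {O F B : Type} [CommRing O] [Field F] [Algebra O F] [Ring B] [Algebra F B] {D : ℕ}

/-- the product of three basis elements -/
theorem mul_three (b : Fin D → B) (c : SC F D) (hb : ∀ i j, b i * b j = ∑ k, c i j k • b k)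
    (k a l : Fin D) : b k * b a * b l = ∑ d, LR c (k, l) (a, d) • b d := by
  rw [hb, Finset.sum_mul]
  simp only [smul_mul_assoc, hb, Finset.smul_sum, LR, Finset.sum_smul, mul_smul]
  exact Finset.sum_comm

/-- structure constants in `O` with a unit as determinant of `LR` -/
theorem azInt_of_sc (b : Module.Basis (Fin D) F B) (c : SC O D)
    (hb : ∀ i j, b i * b j = ∑ k, algebraMap O F (c i j k) • b k) (hu : IsUnit (LR c).det) :
    AzInt O F B D b fun i => b.coord i := by
  classical
  have hinv : (LR c)⁻¹ * LR c = 1 := Matrix.nonsing_inv_mul _ hu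
  have hLR : LR (fun i j k => algebraMap O F (c i j k)) = (LR c).map (algebraMap O F) :=
    Pool.Agent.Helper15.BR.LR_map (algebraMap O F) c
  have hprod : ∀ k a l, b k * b a * b l = ∑ d, algebraMap O F (LR c (k, l) (a, d)) • b d := by
    intro k a l
    rw [mul_three (b : Fin D → B) (fun i j k => algebraMap O F (c i j k)) hb k a l, hLR]
    rfl
  have hmat : ∀ i j : Fin D, ∀ x, b.coord j x • b i = ∑ k, ∑ l,
      algebraMap O F ((LR c)⁻¹ (j, i) (k, l)) • (b k * x * b l) := by
    intro i j x
    let T : B →ₗ[F] B := ∑ k, ∑ l, algebraMap O F ((LR c)⁻¹ (j, i) (k, l)) •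
      (LinearMap.mulRight F (b l) ∘ₗ LinearMap.mulLeft F (b k))
    have hT : ∀ x, T x = ∑ k, ∑ l, algebraMap O F ((LR c)⁻¹ (j, i) (k, l)) •
        (b k * x * b l) := by
      intro x
      simp [T, LinearMap.sum_apply]
    rw [← hT]
    have h : (LinearMap.toSpanSingleton F B (b i)) ∘ₗ b.coord j = T := by
      apply b.ext
      intro a
      rw [hT]
      simp only [hprod, Finset.smul_sum, smul_smul, ← map_mul]
      have h2 : ∀ d, ∑ k, ∑ l, (LR c)⁻¹ (j, i) (k, l) * LR c (k, l) (a, d) =
          (1 : Matrix (Fin D × Fin D) (Fin D × Fin D) O) (j, i) (a, d) := by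
        intro d
        rw [← hinv, Matrix.mul_apply, Fintype.sum_prod_type]
      have h3 : ∑ k, ∑ l, ∑ d, algebraMap O F ((LR c)⁻¹ (j, i) (k, l) * LR c (k, l) (a, d)) •
          b d = ∑ d, algebraMap O F (∑ k, ∑ l, (LR c)⁻¹ (j, i) (k, l) *
          LR c (k, l) (a, d)) • b d := by
        simp only [map_sum, Finset.sum_smul]
        symm
        rw [Finset.sum_comm]
        refine Finset.sum_congr rfl fun k _ => ?_
        rw [Finset.sum_comm]
      rw [h3]
      simp only [h2]
      rw [LinearMap.comp_apply, Module.Basis.coord_apply, Module.Basis.repr_self,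
        LinearMap.toSpanSingleton_apply, Finset.sum_eq_single i]
      · by_cases haj : a = j
        · subst haj
          simp
        · rw [Finsupp.single_eq_of_ne (Ne.symm haj), Matrix.one_apply_ne, map_zero]
          intro h; exact haj (Prod.ext_iff.1 h).1.symm
      · intro d _ hd
        rw [Matrix.one_apply_ne, map_zero, zero_smul]
        intro h; exact hd (Prod.ext_iff.1 h).2.symm
      · simp
    rw [← h]
    rfl
  refine ⟨fun i j => ⟨c i j, hb i j⟩, ?_, fun x => ?_, fun i j => ?_, fun i j => ?_⟩
  · have h1 : (1 : B) = ∑ j, b.coord j 1 • b j := (b.sum_repr 1).symm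
    have h2 : (1 : B) = ∑ j, ∑ k, ∑ l, ∑ d,
        algebraMap O F ((LR c)⁻¹ (j, j) (k, l) * c k l d) • b d := by
      rw [h1]
      refine Finset.sum_congr rfl fun j _ => ?_
      rw [hmat j j 1]
      refine Finset.sum_congr rfl fun k _ => Finset.sum_congr rfl fun l _ => ?_
      rw [mul_one, hb, Finset.smul_sum]
      refine Finset.sum_congr rfl fun d _ => ?_
      rw [smul_smul, map_mul]
    refine ⟨fun d => ∑ j, ∑ k, ∑ l, (LR c)⁻¹ (j, j) (k, l) * c k l d, ?_⟩
    rw [h2]
    simp only [map_sum, Finset.sum_smul]
    symm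
    rw [Finset.sum_comm]
    refine Finset.sum_congr rfl fun j _ => ?_
    rw [Finset.sum_comm]
    refine Finset.sum_congr rfl fun k _ => ?_
    rw [Finset.sum_comm]
  · exact (b.sum_repr x).symm
  · refine ⟨if j = i then 1 else 0, ?_⟩
    rw [Module.Basis.coord_apply, Module.Basis.repr_self, Finsupp.single_apply]
    by_cases h : j = i
    · simp [h]
    · simp [h]
  · exact ⟨fun k l => (LR c)⁻¹ (j, i) (k, l), hmat i j⟩

end Core

/-- change of basis for structure constants -/
theorem exists_basis_of_gram {F B : Type} [Field F] [Ring B] [Algebra F B] {D : ℕ}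
    (b : Module.Basis (Fin D) F B) (c c' : SC F D) (g : Matrix (Fin D) (Fin D) F)
    (hg : g.det ≠ 0) (hb : ∀ i j, b i * b j = ∑ k, c i j k • b k)
    (h : ∀ i j d, ∑ a, ∑ e, g i a * g j e * c a e d = ∑ k, c' i j k * g k d) :
    ∃ b' : Module.Basis (Fin D) F B, ∀ i j, b' i * b' j = ∑ k, c' i j k • b' k := by
  classical
  let v : Fin D → B := fun i => ∑ a, g i a • b a
  have hM : b.toMatrix v = g.transpose := by
    ext i j
    rw [Module.Basis.toMatrix_apply, Matrix.transpose_apply]
    simp [v, Finsupp.single_apply]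
  have hv : LinearIndependent F v ∧ Submodule.span F (Set.range v) = ⊤ := by
    rw [Module.Basis.is_basis_iff_det b, Module.Basis.det_apply, hM, Matrix.det_transpose]
    exact isUnit_iff_ne_zero.2 hg
  refine ⟨Module.Basis.mk hv.1 hv.2.ge, fun i j => ?_⟩
  simp only [Module.Basis.mk_apply]
  have h1 : v i * v j = ∑ d, (∑ a, ∑ e, g i a * g j e * c a e d) • b d := by
    simp only [v, Finset.sum_mul_sum, smul_mul_smul_comm, hb,
      Finset.smul_sum, smul_smul, Finset.sum_smul]
    symm
    rw [Finset.sum_comm]
    refine Finset.sum_congr rfl fun a _ => ?_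
    rw [Finset.sum_comm]
  rw [h1]
  simp only [h, v, Finset.smul_sum, smul_smul, Finset.sum_smul]
  exact Finset.sum_comm

/-- **W4.** good reduction at `p` gives integral data over the completion -/
theorem azInt_of_good {K : Type} [Field K] [NumberField K] {D : ℕ} (p : Pl K) (c : SC K D)
    (h : Good p c) (B : Type) [Ring B] [Algebra (p.adicCompletion K) B]
    (b : Module.Basis (Fin D) (p.adicCompletion K) B)
    (hb : ∀ i j, b i * b j = ∑ k, algebraMap K (p.adicCompletion K) (c i j k) • b k) :
    ∃ (g : Fin D → B) (f : Fin D → B →ₗ[p.adicCompletion K] p.adicCompletion K),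
      AzInt (p.adicCompletionIntegers K) (p.adicCompletion K) B D g f := by
  classical
  obtain ⟨g, c', hg, hint, hunit, hgc⟩ := h
  have hval : ∀ x : K, Valued.v (algebraMap K (p.adicCompletion K) x) = vl p x := fun x =>
    IsDedekindDomain.HeightOneSpectrum.valuedAdicCompletion_eq_valuation' p x
  obtain ⟨b', hb'⟩ := exists_basis_of_gram b
    (fun i j k => algebraMap K (p.adicCompletion K) (c i j k))
    (fun i j k => algebraMap K (p.adicCompletion K) (c' i j k))
    (g.map (algebraMap K (p.adicCompletion K)))
    (by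
      have := RingHom.map_det (algebraMap K (p.adicCompletion K)) g
      rw [RingHom.mapMatrix_apply] at this
      rw [← this]
      exact (map_ne_zero _).2 hg) hb
    (fun i j d => by
      have := congrArg (algebraMap K (p.adicCompletion K)) (hgc i j d)
      simpa only [map_sum, map_mul, Matrix.map_apply] using this)
  have hmem : ∀ i j k, algebraMap K (p.adicCompletion K) (c' i j k) ∈
      p.adicCompletionIntegers K := fun i j k => by
    rw [IsDedekindDomain.HeightOneSpectrum.mem_adicCompletionIntegers, hval]
    exact hint i j k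
  let c'' : SC (p.adicCompletionIntegers K) D := fun i j k =>
    ⟨algebraMap K (p.adicCompletion K) (c' i j k), hmem i j k⟩
  have hdet : ((LR c'').det : p.adicCompletion K) =
      algebraMap K (p.adicCompletion K) (LR c').det := by
    have h1 := Pool.Agent.Helper15.BR.det_LR_map
      (algebraMap (p.adicCompletionIntegers K) (p.adicCompletion K)) c''
    have h2 := Pool.Agent.Helper15.BR.det_LR_map (algebraMap K (p.adicCompletion K)) c'
    exact h1.symm.trans h2
  have hu : IsUnit (LR c'').det := by
    have h1 : Valued.v ((LR c'').det : p.adicCompletion K) = 1 := by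
      rw [hdet, hval]; exact hunit
    have h0 : ((LR c'').det : p.adicCompletion K) ≠ 0 := by
      intro h0; rw [h0, map_zero] at h1; exact zero_ne_one h1
    have hm : (((LR c'').det : p.adicCompletion K))⁻¹ ∈ p.adicCompletionIntegers K := by
      rw [IsDedekindDomain.HeightOneSpectrum.mem_adicCompletionIntegers, map_inv₀, h1, inv_one]
    refine IsUnit.of_mul_eq_one ⟨_, hm⟩ ?_
    apply Subtype.ext
    exact mul_inv_cancel₀ h0
  exact ⟨b', fun i => b'.coord i, azInt_of_sc b' c'' hb' hu⟩

end Pool.Agent.Helper92.BR
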