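import Pool.Agent.Helper35.BR.Defs
import Pool.Agent.Helper55.BR.Simple

/-!
# BR, block END, piece P3b: generic basis and splitting
-/

set_option autoImplicit false

namespace Pool.Agent.Helper92.BR

open TensorProduct Pool.Agent.Helper35.BR

/-- a basis of the generic fibre consisting of elements of the algebra -/
theorem exists_basis {R : Type} [CommRing R] [IsDomain R] (A : Type) [Ring A] [Algebra R A]
    [Module.Finite R A] (m : ℕ)
    (hm : Module.finrank (FractionRing R) (FractionRing R ⊗[R] A) = m ^ 2) :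
    ∃ (e : Fin m × Fin m → A)
      (b : Module.Basis (Fin m × Fin m) (FractionRing R) (FractionRing R ⊗[R] A)),
      ∀ j, b j = 1 ⊗ₜ e j := by
  classical
  have hspan : ⊤ ≤ Submodule.span (FractionRing R)
      (Set.range fun a : A => (1 : FractionRing R) ⊗ₜ[R] a) := by
    intro x _
    induction x with
    | zero => exact Submodule.zero_mem _
    | tmul c a =>
      have : c ⊗ₜ[R] a = c • ((1 : FractionRing R) ⊗ₜ[R] a) := by
        rw [TensorProduct.smul_tmul', smul_eq_mul, mul_one]
      rw [this]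
      exact Submodule.smul_mem _ _ (Submodule.subset_span ⟨a, rfl⟩)
    | add x y hx hy => exact Submodule.add_mem _ (hx trivial) (hy trivial)
  let b0 := Module.Basis.ofSpan hspan
  have hsub : ∀ i, ∃ a : A, (1 : FractionRing R) ⊗ₜ[R] a = b0 i := fun i =>
    Module.Basis.ofSpan_subset hspan ⟨i, rfl⟩
  have : Module.Finite (FractionRing R) (FractionRing R ⊗[R] A) := inferInstance
  have := Module.Finite.finite_basis b0
  have := Fintype.ofFinite
    ↑((linearIndepOn_empty (FractionRing R) id).extend (Set.empty_subset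
      (Set.range fun a : A => (1 : FractionRing R) ⊗ₜ[R] a)))
  have hcard : Fintype.card (Fin m × Fin m) = Fintype.card
      ↑((linearIndepOn_empty (FractionRing R) id).extend (Set.empty_subset
      (Set.range fun a : A => (1 : FractionRing R) ⊗ₜ[R] a))) := by
    rw [← Module.finrank_eq_card_basis b0, hm, Fintype.card_prod, Fintype.card_fin, sq]
  let ε := Fintype.equivOfCardEq hcard
  choose e he using hsub
  refine ⟨fun j => e (ε j), b0.reindex ε.symm, fun j => ?_⟩
  rw [Module.Basis.reindex_apply, Equiv.symm_symm, ← he]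

/-- denominators and torsion -/
theorem exists_den {R : Type} [CommRing R] [IsDomain R] (A : Type) [Ring A] [Algebra R A]
    {ι : Type} [Fintype ι] (e : ι → A)
    (b : Module.Basis ι (FractionRing R) (FractionRing R ⊗[R] A)) (hb : ∀ j, b j = 1 ⊗ₜ e j)
    (a : A) : ∃ (d : R) (c : ι → R), d ≠ 0 ∧ d • a = ∑ j, c j • e j := by
  classical
  obtain ⟨d, hd⟩ := IsLocalization.exist_integer_multiples_of_finite (nonZeroDivisors R)
    (fun j => b.repr (1 ⊗ₜ a) j)
  choose c hc using hd
  have hd0 : (d : R) ≠ 0 := nonZeroDivisors.ne_zero d.2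
  have h1 : (1 : FractionRing R) ⊗ₜ[R] ((d : R) • a - ∑ j, c j • e j) = 0 := by
    rw [TensorProduct.tmul_sub, TensorProduct.tmul_sum, sub_eq_zero]
    have h2 := b.sum_repr ((1 : FractionRing R) ⊗ₜ[R] a)
    rw [TensorProduct.tmul_smul, ← h2, Finset.smul_sum]
    refine Finset.sum_congr rfl fun j _ => ?_
    have h3 := hc j
    rw [hb, TensorProduct.tmul_smul, ← smul_assoc]
    rw [← algebraMap_smul (FractionRing R) (c j), h3]
  have hloc : IsLocalizedModule (nonZeroDivisors R) (TensorProduct.mk R (FractionRing R) A 1) :=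
    (isLocalizedModule_iff_isBaseChange (nonZeroDivisors R) (FractionRing R) _).2
      (TensorProduct.isBaseChange R A (FractionRing R))
  obtain ⟨d', hd'⟩ := (IsLocalizedModule.eq_zero_iff (nonZeroDivisors R)
    (TensorProduct.mk R (FractionRing R) A 1)).1 h1
  have hd0' : (d' : R) ≠ 0 := nonZeroDivisors.ne_zero d'.2
  refine ⟨d' * d, fun j => d' * c j, mul_ne_zero hd0' hd0, ?_⟩
  have h4 : (d' : R) • ((d : R) • a - ∑ j, c j • e j) = 0 := hd'
  rw [smul_sub, sub_eq_zero, Finset.smul_sum] at h4
  rw [mul_smul, h4]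
  exact Finset.sum_congr rfl fun j _ => (mul_smul _ _ _).symm

/-- **P3b.** generic basis and splitting -/
theorem generic_split_of {R : Type} [CommRing R] [IsDomain R] (A : Type) [Ring A] [Algebra R A]
    [Module.Finite R A] (m : ℕ)
    (hm : Module.finrank (FractionRing R) (FractionRing R ⊗[R] A) = m ^ 2)
    (hρ : ∃ ρ : FractionRing R ⊗[R] A →ₐ[FractionRing R]
        Matrix (Fin m) (Fin m) (AlgebraicClosure (FractionRing R)),
      ∀ b : Module.Basis (Fin m × Fin m) (FractionRing R) (FractionRing R ⊗[R] A),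
        (Matrix.of fun j k : Fin m × Fin m => ρ (b j) k.1 k.2).det ≠ 0) :
    ∃ (e : Fin m × Fin m → A) (δ : R)
      (ρ : A →+* Matrix (Fin m) (Fin m) (AlgebraicClosure (FractionRing R))), δ ≠ 0 ∧
      Over (algebraMap R (AlgebraicClosure (FractionRing R))) ρ ∧
      (∀ a, ∃ c : Fin m × Fin m → R, δ • a = ∑ j, c j • e j) ∧
      (Matrix.of fun j k : Fin m × Fin m => ρ (e j) k.1 k.2).det ≠ 0 := by
  classical
  obtain ⟨ρ, hρ⟩ := hρ
  obtain ⟨e, b, hb⟩ := exists_basis (R := R) A m hm
  obtain ⟨s, hs⟩ := (Module.Finite.fg_top : (⊤ : Submodule R A).FG)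
  choose d c hd hc using exists_den A e b hb
  refine ⟨e, ∏ x ∈ s, d x, (ρ : _ →+* _).comp
    (Algebra.TensorProduct.includeRight : A →ₐ[R] FractionRing R ⊗[R] A).toRingHom,
    Finset.prod_ne_zero_iff.2 fun x _ => hd x, ?_, ?_, ?_⟩
  · intro r
    have h1 : (Algebra.TensorProduct.includeRight : A →ₐ[R] FractionRing R ⊗[R] A)
        (algebraMap R A r) = algebraMap (FractionRing R) _ (algebraMap R (FractionRing R) r) := by
      rw [AlgHom.commutes, ← IsScalarTower.algebraMap_apply]
    change ρ ((Algebra.TensorProduct.includeRight : A →ₐ[R] FractionRing R ⊗[R] A)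
        (algebraMap R A r)) = _
    rw [h1, AlgHom.commutes, IsScalarTower.algebraMap_apply (FractionRing R)
      (AlgebraicClosure (FractionRing R)), ← IsScalarTower.algebraMap_apply R]
  · intro a
    have ha : a ∈ Submodule.span R (s : Set A) := by rw [hs]; trivial
    induction ha using Submodule.span_induction with
    | mem x hx =>
      refine ⟨fun j => (∏ y ∈ s.erase x, d y) * c x j, ?_⟩
      rw [← Finset.prod_erase_mul s d hx, mul_smul, hc, Finset.smul_sum]
      exact Finset.sum_congr rfl fun j _ => (mul_smul _ _ _).symm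
    | zero => exact ⟨0, by simp⟩
    | add x y _ _ hx hy =>
      obtain ⟨cx, hx⟩ := hx
      obtain ⟨cy, hy⟩ := hy
      refine ⟨cx + cy, ?_⟩
      rw [smul_add, hx, hy, ← Finset.sum_add_distrib]
      exact Finset.sum_congr rfl fun j _ => (add_smul _ _ _).symm
    | smul r x _ hx =>
      obtain ⟨cx, hx⟩ := hx
      refine ⟨r • cx, ?_⟩
      rw [smul_comm, hx, Finset.smul_sum]
      exact Finset.sum_congr rfl fun j _ => by rw [Pi.smul_apply, smul_assoc]
  · have h := hρ b
    simp only [hb] at h
    exact h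

/-- **P3b**, literal form -/
theorem generic_split {R : Type} [CommRing R] [IsDomain R] (A : Type) [Ring A] [Algebra R A]
    [Module.Finite R A] (m : ℕ) (hc : Algebra.IsCentral (FractionRing R) (FractionRing R ⊗[R] A))
    (hs : IsSimpleRing (FractionRing R ⊗[R] A))
    (hm : Module.finrank (FractionRing R) (FractionRing R ⊗[R] A) = m ^ 2) :
    ∃ (e : Fin m × Fin m → A) (δ : R)
      (ρ : A →+* Matrix (Fin m) (Fin m) (AlgebraicClosure (FractionRing R))), δ ≠ 0 ∧
      Over (algebraMap R (AlgebraicClosure (FractionRing R))) ρ ∧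
      (∀ a, ∃ c : Fin m × Fin m → R, δ • a = ∑ j, c j • e j) ∧
      (Matrix.of fun j k : Fin m × Fin m => ρ (e j) k.1 k.2).det ≠ 0 :=
  generic_split_of A m hm (Pool.Agent.Helper55.BR.split_closure (FractionRing R ⊗[R] A) m hm)

end Pool.Agent.Helper92.BR
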